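import Pool.Agent.helper51.QS.SpecB

set_option autoImplicit false

namespace Pool.Agent.QS

open Pool.Agent.PC
open scoped Pointwise

universe u

theorem HTP_h1 {R : Type u} [CommRing R] [IsDomain R] (P : Ideal R) [hP : P.IsPrime] :
    P.height = 1 ↔ P ≠ ⊥ ∧ ∀ P1 : Ideal R, P1.IsPrime → P1 ≠ ⊥ → P1 ≤ P → P1 = P := by
  constructor
  · intro h
    refine ⟨Ideal.ne_bot_of_height_eq_one h, fun P1 hP1 h1 hle => ?_⟩
    by_contra hne
    have hlt : P1 < P := lt_of_le_of_ne hle hne
    have h2 := Ideal.height_add_one_le_of_lt_of_isPrime hlt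
    rw [h] at h2
    have h3 : P1.height = 0 := by
      have h4 : P1.height + 1 ≤ 0 + 1 := by simpa using h2
      have h5 := (ENat.add_le_add_iff_right (by simp)).1 h4
      simpa using h5
    exact h1 (Ideal.height_eq_zero_iff_eq_bot.1 h3)
  · rintro ⟨h0, h1⟩
    apply le_antisymm
    · have : P.height ≤ (1 : ℕ) := by
        rw [Ideal.height_le_iff]
        intro q hq hlt
        by_cases hq0 : q = ⊥
        · subst hq0
          rw [Ideal.height_bot]
          simp
        · exact absurd (h1 q hq hq0 hlt.le) hlt.ne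
      simpa using this
    · rw [Order.one_le_iff_pos, pos_iff_ne_zero]
      intro h
      exact h0 (Ideal.height_eq_zero_iff_eq_bot.1 h)

theorem HTP_gd {R A G : Type u} [CommRing R] [IsDomain R] [CommRing A] [IsDomain A] [Algebra R A]
    [FaithfulSMul R A] [Group G] [Finite G] [MulSemiringAction G A] [SMulCommClass G R A]
    [Algebra.IsInvariant R A G] (p : Ideal R) (Q : Ideal A) (hp : p.IsPrime) (hQ : Q.IsPrime)
    (h : p ≤ Q.comap (algebraMap R A)) :
    ∃ P : Ideal A, P.IsPrime ∧ P ≤ Q ∧ P.comap (algebraMap R A) = p := by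
  have : Algebra.IsIntegral R A := Algebra.IsInvariant.isIntegral R A G
  have hker : RingHom.ker (algebraMap R A) ≤ p := by
    rw [(RingHom.injective_iff_ker_eq_bot _).1 (FaithfulSMul.algebraMap_injective R A)]
    exact bot_le
  obtain ⟨P', hP', hPp⟩ := Ideal.exists_ideal_over_prime_of_isIntegral_of_isDomain p hker
  obtain ⟨Q', hPQ', hQ', hQq⟩ := Ideal.exists_ideal_over_prime_of_isIntegral_of_isPrime
    (Q.comap (algebraMap R A)) P' (by rw [hPp]; exact h)
  obtain ⟨g, hg⟩ := Algebra.IsInvariant.exists_smul_of_under_eq R A G Q' Q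
    (by rw [Ideal.under_def, Ideal.under_def, hQq])
  refine ⟨g • P', hP'.smul g, ?_, ?_⟩
  · rw [hg]
    exact Ideal.pointwise_smul_le_pointwise_smul_iff.2 hPQ'
  · have := P'.under_smul R g
    rw [Ideal.under_def, Ideal.under_def] at this
    rw [this, hPp]

theorem HTP : HTP_stmt.{u} := by
  intro R A G _ _ _ _ _ _ _ _ _ _ _
  have hint : Algebra.IsIntegral R A := Algebra.IsInvariant.isIntegral R A G
  have hinj := FaithfulSMul.algebraMap_injective R A
  have hbot : (⊥ : Ideal A).comap (algebraMap R A) = ⊥ := by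
    rw [← RingHom.ker_eq_comap_bot, (RingHom.injective_iff_ker_eq_bot _).1 hinj]
  constructor
  · intro Q hQ hQ1
    have hPp : (Q.comap (algebraMap R A)).IsPrime := Ideal.comap_isPrime _ _
    rw [HTP_h1] at hQ1 ⊢
    refine ⟨Ideal.IsIntegral.comap_ne_bot R hQ1.1, fun P1 hP1 h0 hle => ?_⟩
    obtain ⟨Q1, hQ1p, hQ1le, hQ1c⟩ := HTP_gd (G := G) P1 Q hP1 hQ hle
    have : Q1 ≠ ⊥ := by
      rintro rfl
      exact h0 (by rw [← hQ1c, hbot])
    rw [← hQ1c, hQ1.2 Q1 hQ1p this hQ1le]
  · intro S m hS hS1 hm hle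
    obtain ⟨Q, hQp, hQle, hQc⟩ := HTP_gd (G := G) S m hS hm hle
    refine ⟨Q, hQp, hQle, ?_, hQc⟩
    rw [HTP_h1] at hS1 ⊢
    constructor
    · rintro rfl
      exact hS1.1 (by rw [← hQc, hbot])
    · intro Q1 hQ1 h0 hle1
      have h2 : Q1.comap (algebraMap R A) = S := by
        refine hS1.2 _ (Ideal.comap_isPrime _ _) (Ideal.IsIntegral.comap_ne_bot R h0) ?_
        rw [← hQc]
        exact Ideal.comap_mono hle1
      by_contra hne
      have := Ideal.IsIntegral.comap_lt_comap (R := R) (lt_of_le_of_ne hle1 hne)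
      rw [h2, hQc] at this
      exact lt_irrefl _ this

end Pool.Agent.QS
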