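import Pool.Agent.helper51.QS.SpecB

set_option autoImplicit false

namespace Pool.Agent.QS

open Pool.Agent.PC

universe u

/-- A monic factor of a distinguished polynomial is distinguished. -/
theorem PS1_dist {B : Type u} [CommRing B] [IsLocalRing B] {f g : Polynomial B} (hf : f.Monic)
    (_ : g.Monic) (h : (f * g).IsDistinguishedAt (IsLocalRing.maximalIdeal B)) :
    f.IsDistinguishedAt (IsLocalRing.maximalIdeal B) := by
  have : (IsLocalRing.maximalIdeal B).IsPrime := inferInstance
  have e := h.map_eq_X_pow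
  rw [Polynomial.map_mul] at e
  have hd : f.map (Ideal.Quotient.mk (IsLocalRing.maximalIdeal B)) ∣
      (Polynomial.X : Polynomial (B ⧸ IsLocalRing.maximalIdeal B)) ^ (f * g).natDegree :=
    ⟨_, e.symm⟩
  obtain ⟨i, -, hi⟩ := (dvd_prime_pow Polynomial.prime_X _).1 hd
  have e2 := Polynomial.eq_of_monic_of_associated (hf.map _) (Polynomial.monic_X_pow i) hi
  have hi2 : f.natDegree = i := by
    rw [← hf.natDegree_map (Ideal.Quotient.mk (IsLocalRing.maximalIdeal B)), e2,
      Polynomial.natDegree_X_pow]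
  refine ⟨⟨fun {j} hj => ?_⟩, hf⟩
  have := congrArg (fun q => Polynomial.coeff q j) e2
  simp only [Polynomial.coeff_map, Polynomial.coeff_X_pow] at this
  rw [if_neg (by omega)] at this
  exact Ideal.Quotient.eq_zero_iff_mem.1 this

/-- An irreducible distinguished polynomial is prime in the power series ring. -/
theorem PS1_prime {B : Type u} [CommRing B] [IsDomain B] [IsLocalRing B]
    [IsAdicComplete (IsLocalRing.maximalIdeal B) B]
    [UniqueFactorizationMonoid B] {f : Polynomial B}
    (h : f.IsDistinguishedAt (IsLocalRing.maximalIdeal B)) (hi : Irreducible f) :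
    Prime (f : PowerSeries B) := by
  have hp : Prime f := hi.prime
  have h0 : (f : PowerSeries B) ≠ 0 := by
    intro h0
    exact hp.ne_zero (by exact_mod_cast h0)
  rw [← Ideal.span_singleton_prime h0]
  rw [← Ideal.Quotient.isDomain_iff_prime]
  have : (Ideal.span {f}).IsPrime := (Ideal.span_singleton_prime hp.ne_zero).2 hp
  exact (h.algEquivQuotient).symm.toMulEquiv.isDomain _

theorem PS1_fac {B : Type u} [CommRing B] [IsDomain B] [IsLocalRing B]
    [IsAdicComplete (IsLocalRing.maximalIdeal B) B]
    [UniqueFactorizationMonoid B] (n : ℕ) : ∀ (f : Polynomial B),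
    f.natDegree ≤ n → f.IsDistinguishedAt (IsLocalRing.maximalIdeal B) →
    ∃ s : Multiset (PowerSeries B), (∀ a ∈ s, Prime a) ∧ s.prod = f := by
  induction n with
  | zero =>
    intro f hn h
    have : f = 1 := h.monic.natDegree_eq_zero.1 (by omega)
    exact ⟨0, by simp, by simp [this]⟩
  | succ n ih =>
    intro f hn h
    by_cases h1 : f = 1
    · exact ⟨0, by simp, by simp [h1]⟩
    by_cases hirr : Irreducible f
    · exact ⟨{(f : PowerSeries B)}, by simpa using PS1_prime h hirr, by simp⟩
    rw [h.monic.irreducible_iff_natDegree] at hirr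
    push Not at hirr
    obtain ⟨a, b, ha, hb, hab, ha0, hb0⟩ := hirr h1
    have hdeg := ha.natDegree_mul hb
    rw [hab] at hdeg
    have hda : a.IsDistinguishedAt (IsLocalRing.maximalIdeal B) :=
      PS1_dist ha hb (by rw [hab]; exact h)
    have hdb : b.IsDistinguishedAt (IsLocalRing.maximalIdeal B) :=
      PS1_dist hb ha (by rw [mul_comm, hab]; exact h)
    obtain ⟨s, hs, hs2⟩ := ih a (by omega) hda
    obtain ⟨t, ht, ht2⟩ := ih b (by omega) hdb
    refine ⟨s + t, ?_, ?_⟩
    · intro x hx
      rcases Multiset.mem_add.1 hx with hx | hx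
      · exact hs x hx
      · exact ht x hx
    · rw [Multiset.prod_add, hs2, ht2, ← hab, Polynomial.coe_mul]

theorem PS1 : PS1_stmt.{u} := by
  intro B _ _ _ _ _ _ f hf
  obtain ⟨g, h, H⟩ := PowerSeries.exists_isWeierstrassFactorization hf
  obtain ⟨s, hs, hs2⟩ := PS1_fac g.natDegree g le_rfl H.isDistinguishedAt
  refine ⟨s, hs, ?_⟩
  rw [hs2, H.eq_mul]
  obtain ⟨w, hw⟩ := H.isUnit
  exact ⟨w, by rw [hw]⟩

end Pool.Agent.QS
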