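import Pool.Agent.helper51.QS.SpecB

set_option autoImplicit false

namespace Pool.Agent.QS

open Pool.Agent.PC

universe u

/-- Restriction of a power series to the axis of the first variable. -/
noncomputable def PS2_res (k : Type u) [Field k] (n : ℕ) :
    MvPowerSeries (Fin (n + 1)) k →+* PowerSeries k where
  toFun f := PowerSeries.mk fun d => MvPowerSeries.coeff (Finsupp.single 0 d) f
  map_one' := by
    ext d
    rw [PowerSeries.coeff_mk, MvPowerSeries.coeff_one, PowerSeries.coeff_one]
    by_cases h : d = 0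
    · simp [h]
    · rw [if_neg h, if_neg]
      intro h2
      exact h (by simpa using h2)
  map_zero' := by ext; simp
  map_add' f g := by ext; simp
  map_mul' f g := by
    ext d
    simp [MvPowerSeries.coeff_mul, PowerSeries.coeff_mul, Finsupp.antidiagonal_single]

theorem PS2_coeff_res {k : Type u} [Field k] {n : ℕ} (f : MvPowerSeries (Fin (n + 1)) k) (d : ℕ) :
    PowerSeries.coeff d (PS2_res k n f) = MvPowerSeries.coeff (Finsupp.single 0 d) f := by
  simp [PS2_res]

/-- The linear substitution. -/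
noncomputable def PS2_a {k : Type u} [Field k] {n : ℕ} (c : Fin (n + 1) → k) :
    Fin (n + 1) → MvPowerSeries (Fin (n + 1)) k :=
  fun i => if i = 0 then MvPowerSeries.C (c 0) * MvPowerSeries.X 0
    else MvPowerSeries.X i + MvPowerSeries.C (c i) * MvPowerSeries.X 0

theorem PS2_hs {k : Type u} [Field k] {n : ℕ} (c : Fin (n + 1) → k) :
    MvPowerSeries.HasSubst (PS2_a c) := by
  apply MvPowerSeries.hasSubst_of_constantCoeff_zero
  intro i
  unfold PS2_a
  split_ifs <;> simp

theorem PS2_comp {k : Type u} [Field k] {n : ℕ} (c d : Fin (n + 1) → k) (h0 : c 0 * d 0 = 1)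
    (h1 : ∀ i, i ≠ 0 → d i = - (c i * d 0)) (f : MvPowerSeries (Fin (n + 1)) k) :
    MvPowerSeries.subst (PS2_a d) (MvPowerSeries.subst (PS2_a c) f) = f := by
  rw [MvPowerSeries.subst_comp_subst_apply (PS2_hs c) (PS2_hs d)]
  have : (fun s => MvPowerSeries.subst (PS2_a d) (PS2_a c s)) =
      (MvPowerSeries.X : Fin (n + 1) → MvPowerSeries (Fin (n + 1)) k) := by
    funext i
    have hX : ∀ j : Fin (n + 1), MvPowerSeries.subst (PS2_a d)
        (MvPowerSeries.X j : MvPowerSeries (Fin (n + 1)) k) = PS2_a d j := fun j =>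
      MvPowerSeries.subst_X (PS2_hs d) j
    have hC : ∀ r : k, MvPowerSeries.subst (PS2_a d)
        (MvPowerSeries.C r : MvPowerSeries (Fin (n + 1)) k) = MvPowerSeries.C r := fun r =>
      MvPowerSeries.subst_C r
    have hd0 : PS2_a d 0 = MvPowerSeries.C (d 0) * MvPowerSeries.X 0 := by
      unfold PS2_a; rw [if_pos rfl]
    by_cases hi : i = 0
    · subst hi
      have : PS2_a c 0 = MvPowerSeries.C (c 0) * MvPowerSeries.X 0 := by
        unfold PS2_a; rw [if_pos rfl]
      rw [this, MvPowerSeries.subst_mul (PS2_hs d), hX, hC, hd0, ← mul_assoc, ← map_mul, h0,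
        map_one, one_mul]
    · have h2 : PS2_a c i = MvPowerSeries.X i + MvPowerSeries.C (c i) * MvPowerSeries.X 0 := by
        unfold PS2_a; rw [if_neg hi]
      have h3 : PS2_a d i = MvPowerSeries.X i + MvPowerSeries.C (d i) * MvPowerSeries.X 0 := by
        unfold PS2_a; rw [if_neg hi]
      rw [h2, MvPowerSeries.subst_add (PS2_hs d), MvPowerSeries.subst_mul (PS2_hs d), hX, hX, hC,
        hd0, h3, h1 i hi, map_neg, map_mul]
      ring
  rw [this, MvPowerSeries.subst_self, id]

theorem PS2_res_a {k : Type u} [Field k] {n : ℕ} (c : Fin (n + 1) → k) (i : Fin (n + 1)) :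
    PS2_res k n (PS2_a c i) = PowerSeries.C (c i) * PowerSeries.X := by
  have hX0 : PS2_res k n (MvPowerSeries.X 0) = PowerSeries.X := by
    ext d
    rw [PS2_coeff_res, MvPowerSeries.coeff_X, PowerSeries.coeff_X]
    by_cases h : d = 1
    · simp [h]
    · rw [if_neg h, if_neg]
      intro h2
      exact h (Finsupp.single_injective _ h2)
  have hC : ∀ r : k, PS2_res k n (MvPowerSeries.C r) = PowerSeries.C r := by
    intro r
    ext d
    rw [PS2_coeff_res, MvPowerSeries.coeff_C, PowerSeries.coeff_C]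
    by_cases h : d = 0
    · simp [h]
    · rw [if_neg h, if_neg]
      intro h2
      exact h (by simpa using h2)
  unfold PS2_a
  split_ifs with hi
  · subst hi
    rw [map_mul, hX0, hC]
  · have hXi : PS2_res k n (MvPowerSeries.X i) = 0 := by
      ext d
      rw [PS2_coeff_res, MvPowerSeries.coeff_X, if_neg]
      · simp
      · intro h
        have := congrArg (fun q => q i) h
        simp [Ne.symm hi] at this
    rw [map_add, map_mul, hX0, hC, hXi, zero_add]

theorem PS2_coeff_prod {k : Type u} [Field k] {n : ℕ} (c : Fin (n + 1) → k)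
    (m : Fin (n + 1) →₀ ℕ) (d : ℕ) :
    MvPowerSeries.coeff (Finsupp.single 0 d) (m.prod fun s e => PS2_a c s ^ e) =
      if ∑ i, m i = d then ∏ i, c i ^ m i else 0 := by
  rw [← PS2_coeff_res, Finsupp.prod_fintype _ _ (by simp), map_prod]
  have : ∀ i, PS2_res k n (PS2_a c i ^ m i) = PowerSeries.C (c i ^ m i) * PowerSeries.X ^ m i := by
    intro i
    rw [map_pow, PS2_res_a, mul_pow, map_pow]
  rw [Finset.prod_congr rfl fun i _ => this i, Finset.prod_mul_distrib, ← map_prod,
    Finset.prod_pow_eq_pow_sum, PowerSeries.coeff_C_mul, PowerSeries.coeff_X_pow]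
  by_cases h : ∑ i, m i = d
  · rw [if_pos h, if_pos h.symm, mul_one]
  · rw [if_neg h, if_neg (Ne.symm h), mul_zero]

theorem PS2 : PS2_stmt.{u} := by
  intro k _ _ n f hf
  classical
  obtain ⟨m0, hm0⟩ : ∃ m, MvPowerSeries.coeff m f ≠ 0 := by
    by_contra h
    push Not at h
    exact hf (MvPowerSeries.ext fun m => by rw [h m]; simp)
  set d := ∑ i, m0 i with hd
  set S : Finset (Fin (n + 1) →₀ ℕ) := Finset.finsuppAntidiag Finset.univ d with hS
  have hmem : ∀ m, m ∈ S ↔ ∑ i, m i = d := by
    intro m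
    rw [hS, Finset.mem_finsuppAntidiag]
    simp
  let g : MvPolynomial (Fin (n + 1)) k :=
    ∑ m ∈ S, MvPolynomial.monomial m (MvPowerSeries.coeff m f)
  have hg : g ≠ 0 := by
    intro h
    have h2 := congrArg (MvPolynomial.coeff m0) h
    rw [MvPolynomial.coeff_sum, MvPolynomial.coeff_zero, Finset.sum_eq_single m0] at h2
    · rw [MvPolynomial.coeff_monomial, if_pos rfl] at h2
      exact hm0 h2
    · intro b _ hb
      rw [MvPolynomial.coeff_monomial, if_neg hb]
    · intro h3
      exact absurd ((hmem m0).2 hd.symm) h3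
  have hgX : g * MvPolynomial.X 0 ≠ 0 := mul_ne_zero hg (MvPolynomial.X_ne_zero 0)
  obtain ⟨c, hc⟩ : ∃ c : Fin (n + 1) → k, MvPolynomial.eval c (g * MvPolynomial.X 0) ≠ 0 := by
    by_contra h
    push Not at h
    exact hgX (MvPolynomial.funext fun c => by rw [h c, map_zero])
  rw [map_mul, MvPolynomial.eval_X] at hc
  have hc1 := left_ne_zero_of_mul hc
  have hc0 := right_ne_zero_of_mul hc
  let c' : Fin (n + 1) → k := fun i => if i = 0 then (c 0)⁻¹ else - (c i * (c 0)⁻¹)
  have hc'0 : c' 0 = (c 0)⁻¹ := if_pos rfl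
  have hc'i : ∀ i, i ≠ 0 → c' i = - (c i * (c 0)⁻¹) := fun i hi => if_neg hi
  have hA := PS2_comp c c' (by rw [hc'0, mul_inv_cancel₀ hc0]) (fun i hi => by rw [hc'i i hi, hc'0])
  have hB := PS2_comp c' c (by rw [hc'0, inv_mul_cancel₀ hc0])
    (fun i hi => by rw [hc'i i hi]; field_simp)
  refine ⟨{ toFun := MvPowerSeries.subst (PS2_a c)
            invFun := MvPowerSeries.subst (PS2_a c')
            left_inv := hA
            right_inv := hB
            map_mul' := MvPowerSeries.subst_mul (PS2_hs c)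
            map_add' := MvPowerSeries.subst_add (PS2_hs c) }, d, ?_⟩
  change MvPowerSeries.coeff (Finsupp.single 0 d) (MvPowerSeries.subst (PS2_a c) f) ≠ 0
  rw [MvPowerSeries.coeff_subst (PS2_hs c)]
  have hfs : (finsum fun m : Fin (n + 1) →₀ ℕ => MvPowerSeries.coeff m f •
      MvPowerSeries.coeff (Finsupp.single 0 d) (m.prod fun s e => PS2_a c s ^ e)) =
      ∑ m ∈ S, MvPowerSeries.coeff m f •
      MvPowerSeries.coeff (Finsupp.single 0 d) (m.prod fun s e => PS2_a c s ^ e) := by
    apply finsum_eq_sum_of_support_subset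
    intro m hm
    rw [Function.mem_support] at hm
    rw [Finset.mem_coe, hmem]
    by_contra h
    apply hm
    rw [PS2_coeff_prod, if_neg h, smul_zero]
  rw [hfs]
  convert hc1 using 1
  change _ = MvPolynomial.eval c (∑ m ∈ S, MvPolynomial.monomial m (MvPowerSeries.coeff m f))
  rw [map_sum]
  refine Finset.sum_congr rfl fun m hm => ?_
  rw [PS2_coeff_prod, if_pos ((hmem m).1 hm), MvPolynomial.eval_monomial, smul_eq_mul,
    Finsupp.prod_fintype _ _ (by simp)]

end Pool.Agent.QS
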