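import Pool.Agent.helper4.QS.Spec

set_option autoImplicit false

open scoped BigOperators ComplexOrder ComplexConjugate Topology

namespace Pool.Agent.QS

open Pool.Agent.helper86.CM Filter

theorem CES : CES_stmt := by
  intro s p hs f a L ha hf1 hf0 hfa
  have hs0 : (s : ℂ) ≠ 0 := by exact_mod_cast (by omega : s ≠ 0)
  -- Cesàro means of `a`
  have hces : Tendsto (fun J : ℕ => ((J : ℂ))⁻¹ * ∑ j ∈ Finset.range J, a j) atTop (𝓝 L) := by
    have := ha.cesaro_smul
    refine (this.congr fun J => ?_)
    rw [show ((J : ℂ))⁻¹ = (((J : ℝ)⁻¹ : ℝ) : ℂ) by push_cast; rfl, Complex.real_smul]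
  -- a is bounded by 1
  have ha1 : ∀ j, ‖a j‖ ≤ 1 := by
    intro j
    -- use J = j + 1 + p
    have h1 := hfa (j + 1 + p) (s * p - p) p (by have : p ≤ s * p := Nat.le_mul_of_pos_left p hs; omega) (by omega)
    have h2 : j + 1 + p - 1 - p = j := by omega
    rw [h2] at h1
    rw [← h1]
    exact hf1 _ _
  -- the sum over the range, up to an error
  have hsum : ∀ J : ℕ, ‖∑ i ∈ Finset.range (s * J), f J i - ∑ j ∈ Finset.range J, a (J - 1 - j)‖ ≤ p := by
    intro J
    -- the indices j < J with s * j ≥ p
    have h1 : ∑ i ∈ Finset.range (s * J), f J i =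
        ∑ j ∈ (Finset.range J).filter (fun j => p ≤ s * j), a (J - 1 - j) := by
      symm
      refine Finset.sum_of_injOn (fun j => s * j - p) ?_ ?_ ?_ ?_
      · intro x hx y hy hxy
        simp only [Finset.coe_filter, Finset.mem_range, Set.mem_setOf_eq] at hx hy
        have hxy' : s * x - p = s * y - p := hxy
        have : s * x = s * y := by omega
        exact Nat.eq_of_mul_eq_mul_left (by omega) this
      · intro j hj
        simp only [Finset.coe_filter, Finset.mem_range, Set.mem_setOf_eq, Finset.coe_range, Set.mem_Iio] at hj ⊢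
        have : s * j < s * J := Nat.mul_lt_mul_of_pos_left hj.1 (by omega)
        omega
      · intro i hi hni
        refine hf0 J i ?_
        rintro ⟨j, hj1, hj2⟩
        refine hni ⟨j, ?_, ?_⟩
        · simp only [Finset.coe_filter, Finset.mem_range, Set.mem_setOf_eq]
          exact ⟨hj2, by omega⟩
        · show s * j - p = i
          omega
      · intro j hj
        simp only [Finset.mem_filter, Finset.mem_range] at hj
        exact (hfa J (s * j - p) j (by omega) hj.1).symm
    rw [h1, ← Finset.sum_filter_add_sum_filter_not (Finset.range J) (fun j => p ≤ s * j)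
      (fun j => a (J - 1 - j)), sub_add_cancel_left, norm_neg]
    refine (norm_sum_le _ _).trans ?_
    refine (Finset.sum_le_card_nsmul _ _ 1 fun j _ => ha1 _).trans ?_
    rw [nsmul_eq_mul, mul_one]
    have hc : ((Finset.range J).filter (fun j => ¬ p ≤ s * j)).card ≤ p := by
      calc ((Finset.range J).filter (fun j => ¬ p ≤ s * j)).card ≤ (Finset.range p).card := by
            refine Finset.card_le_card fun j hj => ?_
            simp only [Finset.mem_filter, Finset.mem_range, not_le] at hj ⊢
            have : j ≤ s * j := Nat.le_mul_of_pos_left j (by omega)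
            omega
        _ = p := Finset.card_range p
    exact_mod_cast hc
  have hrefl : ∀ J : ℕ, ∑ j ∈ Finset.range J, a (J - 1 - j) = ∑ j ∈ Finset.range J, a j := fun J =>
    Finset.sum_range_reflect (fun j => a j) J
  -- the difference tends to zero
  have hdiff : Tendsto (fun J : ℕ => ((s * J : ℕ) : ℂ)⁻¹ * (∑ i ∈ Finset.range (s * J), f J i -
      ∑ j ∈ Finset.range J, a j)) atTop (𝓝 0) := by
    refine squeeze_zero_norm (a := fun J : ℕ => (p : ℝ) * ((J : ℝ))⁻¹) ?_ ?_
    · intro J
      rw [norm_mul, norm_inv, Complex.norm_natCast]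
      rcases Nat.eq_zero_or_pos J with hJ | hJ
      · subst hJ
        simp
      · have h1 : ((s * J : ℕ) : ℝ)⁻¹ ≤ ((J : ℝ))⁻¹ := by
          have hJ' : (0 : ℝ) < J := by exact_mod_cast hJ
          refine inv_anti₀ hJ' ?_
          exact_mod_cast Nat.le_mul_of_pos_left J (by omega)
        have h2 := hsum J
        rw [hrefl J] at h2
        calc ((s * J : ℕ) : ℝ)⁻¹ * ‖∑ i ∈ Finset.range (s * J), f J i - ∑ j ∈ Finset.range J, a j‖
            ≤ ((J : ℝ))⁻¹ * p := mul_le_mul h1 h2 (norm_nonneg _) (by positivity)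
          _ = (p : ℝ) * ((J : ℝ))⁻¹ := mul_comm _ _
    · have : Tendsto (fun J : ℕ => (p : ℝ) * ((J : ℝ))⁻¹) atTop (𝓝 ((p : ℝ) * 0)) :=
        (tendsto_inv_atTop_nhds_zero_nat).const_mul _
      rwa [mul_zero] at this
  have hmain : Tendsto (fun J : ℕ => (s : ℂ)⁻¹ * (((J : ℂ))⁻¹ * ∑ j ∈ Finset.range J, a j)) atTop (𝓝 ((s : ℂ)⁻¹ * L)) :=
    hces.const_mul _
  have := hdiff.add hmain
  rw [zero_add] at this
  rw [div_eq_inv_mul]
  refine this.congr fun J => ?_
  push_cast
  rw [mul_inv]
  ring

end Pool.Agent.QS
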