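import Pool.Agent.helper4.QS.Spec

set_option autoImplicit false

open scoped BigOperators ComplexOrder ComplexConjugate Topology

namespace Pool.Agent.QS

open Pool.Agent.helper86.CM Filter

theorem EXZ_blk (b : Lat 1) (x : PP) (hx : x ∈ blk b) : ∃ c : ℤ, |c| ≤ 1 ∧ x.1 = c • b := by
  unfold blk at hx
  simp only [Finset.mem_insert, Finset.mem_singleton] at hx
  rcases hx with rfl | rfl | rfl | rfl | rfl
  · exact ⟨0, by norm_num, by simp⟩
  · exact ⟨1, by norm_num, by simp⟩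
  · exact ⟨-1, by norm_num, by simp⟩
  · exact ⟨0, by norm_num, by simp⟩
  · exact ⟨0, by norm_num, by simp⟩

theorem EXZ_core (hSUPP : SUPP_stmt) (hBET : BET_stmt) (B : Lat 1 ≃ₗ[ℤ] Lat 1) (t : ℤ) (hB : Cat B t) (b : Lat 1)
    (s J : ℕ) (z : Lat 1) (hz : EX0 B t b s J (z, 0) ≠ 0) :
    ∃ γ : ℕ → ℤ, (∀ j < J, |γ j| ≤ 2) ∧
      beta B t b z = (∑ j ∈ Finset.range J, (γ j : ℝ) * lam t ^ (s * j)) * beta B t b b := by
  obtain ⟨hb1, -, -, -⟩ := hBET B t hB
  obtain ⟨g, hg1, hg2⟩ := hSUPP PP PP (hh B t) (siteI B s) (blk b) GX E00 (⊥ : AddSubgroup PP) (fun z hz => by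
    unfold E00
    rw [if_neg]
    intro h
    exact hz (by rw [h]; exact AddSubgroup.zero_mem _)) J (z, 0) hz
  have hg3 : ∀ j, ∃ c : ℤ, j < J → (|c| ≤ 2 ∧ (g j).1 = c • b) := by
    intro j
    by_cases hj : j < J
    · obtain ⟨x, hx, y, hy, hxy⟩ := hg1 j hj
      obtain ⟨c, hc, hcx⟩ := EXZ_blk b x hx
      obtain ⟨c', hc', hcy⟩ := EXZ_blk b y hy
      refine ⟨c - c', fun _ => ⟨?_, ?_⟩⟩
      · have := abs_sub c c'
        linarith
      · rw [hxy, Prod.fst_sub, hcx, hcy, sub_smul]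
    · exact ⟨0, fun h => absurd h hj⟩
  choose γ hγ using hg3
  refine ⟨γ, fun j hj => (hγ j hj).1, ?_⟩
  rw [AddSubgroup.mem_bot, sub_eq_zero] at hg2
  have hz1 : z = ∑ j ∈ Finset.range J, pw B ((s * j : ℕ) : ℤ) (γ j • b) := by
    have h1 := congrArg Prod.fst hg2
    rw [Prod.fst_sum] at h1
    change z = _ at h1
    rw [h1]
    refine Finset.sum_congr rfl fun j hj => ?_
    rw [siteI_apply]
    show pw B ((s * j : ℕ) : ℤ) (g j).1 = _
    rw [(hγ j (Finset.mem_range.mp hj)).2]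
  -- additivity of beta in the second variable
  have hadd : ∀ x y : Lat 1, beta B t b (x + y) = beta B t b x + beta B t b y := by
    intro x y
    simp only [beta, map_add, omega_add_right]
    push_cast
    ring
  have hsm : ∀ (c : ℤ) (x : Lat 1), beta B t b (c • x) = c * beta B t b x := by
    intro c x
    simp only [beta, map_zsmul, omega_smul_right]
    push_cast
    ring
  have hzero : beta B t b 0 = 0 := by
    have := hsm 0 0
    simpa using this
  have hsum : ∀ (S : Finset ℕ) (f : ℕ → Lat 1), beta B t b (∑ j ∈ S, f j) = ∑ j ∈ S, beta B t b (f j) := by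
    intro S f
    classical
    induction S using Finset.induction_on with
    | empty => simpa using hzero
    | insert a S ha ih => rw [Finset.sum_insert ha, Finset.sum_insert ha, hadd, ih]
  rw [hz1, hsum, Finset.sum_mul]
  refine Finset.sum_congr rfl fun j _ => ?_
  rw [pw_smul, hsm, hb1, zpow_natCast]
  ring

theorem EXZ (hSUPP : SUPP_stmt) (hBET : BET_stmt) (hLUL : LUL_stmt) (hLAC1 : LAC1_stmt) (hLAC2 : LAC2_stmt) :
    EXZ_stmt := by
  intro B t hB b hb s J hs
  obtain ⟨hb1, -, hb3, hb4⟩ := hBET B t hB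
  have hbb : beta B t b b ≠ 0 := by
    rw [hb3 b]
    exact_mod_cast hb4 b hb
  have ht4 : 4 ≤ t := by
    obtain ⟨r, hr⟩ := hB.ev
    have := hB.lt
    omega
  have hx : 37 / 10 ≤ lam t := ((hLUL t hB.lt).1.2.2 ht4).le
  have hsub : ∀ x y : Lat 1, beta B t b (x - y) = beta B t b x - beta B t b y := by
    intro x y
    simp only [beta, map_sub, sub_eq_add_neg, omega_add_right, omega_neg_right, map_add, map_neg]
    push_cast
    ring
  refine ⟨fun p hp => ?_, fun p q hqp hpq => ?_⟩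
  · by_contra hne
    obtain ⟨γ, hγ, hγ2⟩ := EXZ_core hSUPP hBET B t hB b s J _ hne
    rw [hb1, zpow_natCast] at hγ2
    exact hp (hLAC1 (lam t) hx s J hs γ hγ p (mul_right_cancel₀ hbb hγ2))
  · by_contra hne
    obtain ⟨γ, hγ, hγ2⟩ := EXZ_core hSUPP hBET B t hB b s J _ hne
    rw [hsub, hb1, hb1, zpow_natCast, zpow_natCast, ← sub_mul] at hγ2
    exact hpq (hLAC2 (lam t) hx s J hs γ hγ p q hqp (mul_right_cancel₀ hbb hγ2))

end Pool.Agent.QS
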