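import Pool.Agent.helper32.QS.Spec

set_option autoImplicit false

open scoped BigOperators commutatorElement

namespace QS

theorem FIN : FIN_stmt := by
  intro U H _ _ _ _ _ p hlt
  by_contra hT
  have hcov : ∃ R : Set U, R.ncard ≤ Nat.card H ∧ (Set.univ : Set U) ⊆ {0} ∪ ({u : U | u ≠ 0 ∧ ¬ Good p H u} ∪ R) := by
    by_cases hG : ∃ v : U, Good p H v
    · obtain ⟨v, hv⟩ := hG
      refine ⟨Set.range (fun h : H => h • v), ?_, ?_⟩
      · have h1 : (Set.range (fun h : H => h • v)) = (fun h : H => h • v) '' Set.univ := Set.image_univ.symm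
        rw [h1]
        refine (Set.ncard_image_le (Set.toFinite _)).trans ?_
        rw [Set.ncard_univ]
      · intro w _
        by_cases hw0 : w = 0
        · left; exact hw0
        · right
          by_cases hwG : Good p H w
          · right
            by_contra hw
            apply hT
            refine ⟨v, w, hv, hwG, ?_⟩
            intro h hh
            exact hw ⟨h, hh⟩
          · left; exact ⟨hw0, hwG⟩
    · refine ⟨∅, by simp, ?_⟩
      intro w _
      by_cases hw0 : w = 0
      · left; exact hw0
      · right; left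
        exact ⟨hw0, fun hg => hG ⟨w, hg⟩⟩
  obtain ⟨R, hR, hsub⟩ := hcov
  have h1 : Nat.card U ≤ 1 + ({u : U | u ≠ 0 ∧ ¬ Good p H u}.ncard + R.ncard) := by
    rw [← Set.ncard_univ]
    refine (Set.ncard_le_ncard hsub (Set.toFinite _)).trans ?_
    refine (Set.ncard_union_le _ _).trans ?_
    rw [Set.ncard_singleton]
    exact Nat.add_le_add_left (Set.ncard_union_le _ _) 1
  omega

end QS
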